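import Pool.Agent.H705.RO.Stm

/-! # The part `P_LOP` -/

set_option autoImplicit false

namespace Pool.Agent.H331.RO

open MeasureTheory ProbabilityTheory Filter Topology Finset
open Pool.Agent.H705.RO

/-- the first arguments are near integers -/
def Ak (N : ℕ) (g w s : ℕ → ℝ) (δ t : ℝ) : Set (range N → ℝ × ℝ) :=
  {y | ∀ i : range N, nr δ ((g i.1 + w i.1 * (y i).1) * t / (2 * Real.pi) + (y i).2 + s i.1)}

/-- the sum of the later waves is large -/
noncomputable def Bk (N M : ℕ) (a β g w : ℕ → ℝ) (t : ℝ) : Set (Ico N M → ℝ × ℝ) :=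
  {z | 1 ≤ |∑ i : Ico N M, a i.1 * Real.cos ((g i.1 + w i.1 * (z i).1) * t + 2 * Real.pi * (z i).2 + β i.1)|}

theorem meas_Ak (hARC : P_ARC) (N : ℕ) (g w s : ℕ → ℝ) (δ t : ℝ) : MeasurableSet (Ak N g w s δ t) := by
  have h1 : Ak N g w s δ t = ⋂ i : range N, (fun y : range N → ℝ × ℝ =>
      (g i.1 + w i.1 * (y i).1) * t / (2 * Real.pi) + (y i).2 + s i.1) ⁻¹' {y | nr δ y} := by
    ext y
    simp only [Ak, Set.mem_ofPred_eq, Set.mem_iInter, Set.mem_preimage]
  rw [h1]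
  refine MeasurableSet.iInter fun i => ?_
  refine (hARC.2.2 δ).preimage ?_
  have h2 : Measurable fun y : range N → ℝ × ℝ => y i := measurable_pi_apply i
  have h3 : Measurable fun y : range N → ℝ × ℝ => (y i).1 := h2.fst
  have h4 : Measurable fun y : range N → ℝ × ℝ => (y i).2 := h2.snd
  exact ((((h3.const_mul _).const_add _).mul_const _).div_const _ |>.add h4).add_const _

theorem meas_Bk (N M : ℕ) (a β g w : ℕ → ℝ) (t : ℝ) : MeasurableSet (Bk N M a β g w t) := by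
  have h1 : Measurable fun z : Ico N M → ℝ × ℝ =>
      |∑ i : Ico N M, a i.1 * Real.cos ((g i.1 + w i.1 * (z i).1) * t + 2 * Real.pi * (z i).2 + β i.1)| := by
    apply Continuous.measurable
    fun_prop
  exact measurableSet_le measurable_const h1

theorem one_le_prod (w : ℕ → ℝ) (hw : ∀ n, 0 < w n) (Δ : ℝ) (hΔ : 0 < Δ) (N : ℕ) :
    1 ≤ ∏ n ∈ range N, (1 + 2 * Real.pi / (w n * Δ)) := by
  have h1 : ∏ n ∈ range N, (1 : ℝ) ≤ ∏ n ∈ range N, (1 + 2 * Real.pi / (w n * Δ)) := by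
    refine Finset.prod_le_prod (fun _ _ => zero_le_one) (fun n _ => ?_)
    have h2 : 0 ≤ 2 * Real.pi / (w n * Δ) :=
      div_nonneg (by positivity) (mul_pos (hw n) hΔ).le
    linarith
  rwa [Finset.prod_const_one] at h1

theorem T_LOP (hARC : P_ARC) (hAL : P_AL) (hSEC : P_SEC) (hSTOP : P_STOP) (hHOE : P_HOE) : P_LOP := by
  intro Ω _ P X hM a β g w s ha hw δ Δ v hδ hδ1 hΔ hv N M K hNM hK hsum
  have := hM.prob
  have hprod := one_le_prod w hw Δ hΔ N
  set Q : ℝ := ∏ n ∈ range N, (1 + 2 * Real.pi / (w n * Δ)) with hQ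
  have hind : IndepFun (fun ω (i : range N) => X i ω) (fun ω (i : Ico N M) => X i ω) P := by
    refine hM.indep.indepFun_finset (range N) (Ico N M) ?_ hM.meas
    rw [Finset.disjoint_left]
    intro n h1 h2
    rw [Finset.mem_range] at h1
    rw [Finset.mem_Ico] at h2
    omega
  have hYm : Measurable (fun ω (i : range N) => X i ω) := measurable_pi_iff.2 fun i => hM.meas i
  have hTm : Measurable (fun ω (i : Ico N M) => X i ω) := measurable_pi_iff.2 fun i => hM.meas i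
  -- the events in terms of Y and T
  have hA : ∀ (t : ℝ) (ω : Ω), (fun (i : range N) => X i ω) ∈ Ak N g w s δ t ↔
      ∀ n < N, nr δ (arg g w s (fun n => X n ω) n t) := by
    intro t ω
    constructor
    · intro h n hn
      exact h ⟨n, Finset.mem_range.2 hn⟩
    · rintro h ⟨n, hn⟩
      exact h n (Finset.mem_range.1 hn)
  have hB : ∀ (t : ℝ) (ω : Ω), (fun (i : Ico N M) => X i ω) ∈ Bk N M a β g w t ↔
      1 ≤ |∑ n ∈ Ico N M, wave a β g w (fun n => X n ω) n t| := by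
    intro t ω
    have h1 : ∑ i : Ico N M, a i.1 * Real.cos ((g i.1 + w i.1 * (X i.1 ω).1) * t + 2 * Real.pi * (X i.1 ω).2 + β i.1) =
        ∑ n ∈ Ico N M, wave a β g w (fun n => X n ω) n t :=
      Finset.sum_coe_sort (Ico N M) (fun n => wave a β g w (fun n => X n ω) n t)
    show 1 ≤ |∑ i : Ico N M, a i.1 * Real.cos ((g i.1 + w i.1 * (X i.1 ω).1) * t + 2 * Real.pi * (X i.1 ω).2 + β i.1)| ↔ _
    rw [h1]
  -- the stopping argument
  have h1 := hSTOP Ω (range N → ℝ × ℝ) (Ico N M → ℝ × ℝ) P (fun ω (i : range N) => X i ω)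
    (fun ω (i : Ico N M) => X i ω) hYm hTm hind K (fun k => Ak N g w s δ (Δ * ((k : ℝ) + 1)))
    (fun k => Bk N M a β g w (Δ * ((k : ℝ) + 1))) (ENNReal.ofReal (2 * Real.exp (-(1 / (2 * v)))))
    (fun k => meas_Ak hARC N g w s δ _) (fun k => meas_Bk N M a β g w _) (by
      intro k _
      have h2 := hHOE Ω P X hM a β g w ha (Δ * ((k : ℝ) + 1)) N M 1 v one_pos hv hsum
      rw [one_pow] at h2
      refine le_trans (measure_mono ?_) h2
      intro ω hω
      exact (hB _ ω).1 hω)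
  -- the second moment method
  have h2 := hSEC Ω P K (fun k => {ω | (fun (i : range N) => X i ω) ∈ Ak N g w s δ (Δ * ((k : ℝ) + 1))})
    (δ ^ N) (Q - 1) hK (pow_pos hδ N) (by linarith)
    (fun k _ => hYm (meas_Ak hARC N g w s δ _)) (by
      intro k _
      rw [← (hAL Ω P X hM g w s δ hw hδ.le hδ1 N).1 (Δ * ((k : ℝ) + 1))]
      congr 1
      ext ω
      exact hA _ ω) (by
      intro j _ k _ hjk
      have h3 := (hAL Ω P X hM g w s δ hw hδ.le hδ1 N).2 Δ (Δ * ((j : ℝ) + 1)) (Δ * ((k : ℝ) + 1)) hΔ (by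
        have h4 : Δ * ((j : ℝ) + 1) - Δ * ((k : ℝ) + 1) = Δ * (((j : ℤ) - (k : ℤ) : ℤ) : ℝ) := by
          push_cast
          ring
        rw [h4, abs_mul, abs_of_pos hΔ]
        have h5 : (1 : ℝ) ≤ |(((j : ℤ) - (k : ℤ) : ℤ) : ℝ)| := by
          rw [← Int.cast_abs]
          have h6 : (1 : ℤ) ≤ |(j : ℤ) - (k : ℤ)| := Int.one_le_abs (sub_ne_zero.2 (by exact_mod_cast hjk))
          exact_mod_cast h6
        nlinarith)
      have h4 : (δ ^ N) ^ 2 * (1 + (Q - 1)) = δ ^ (2 * N) * Q := by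
        rw [← pow_mul, mul_comm N 2]
        ring
      rw [h4]
      refine le_trans (measure_mono ?_) h3
      rintro ω ⟨h5, h6⟩
      exact ⟨(hA _ ω).1 h5, (hA _ ω).1 h6⟩)
  have h3 : 0 ≤ 1 / ((K : ℝ) * δ ^ N) + (Q - 1) := by
    have : 0 ≤ 1 / ((K : ℝ) * δ ^ N) := by positivity
    linarith
  calc P {ω | ∀ k < K, (∀ n < N, nr δ (arg g w s (fun n => X n ω) n (Δ * ((k : ℝ) + 1)))) →
          1 ≤ |∑ n ∈ Ico N M, wave a β g w (fun n => X n ω) n (Δ * ((k : ℝ) + 1))|}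
      ≤ P {ω | ∀ k < K, (fun (i : range N) => X i ω) ∈ Ak N g w s δ (Δ * ((k : ℝ) + 1)) →
          (fun (i : Ico N M) => X i ω) ∈ Bk N M a β g w (Δ * ((k : ℝ) + 1))} := by
        refine measure_mono ?_
        intro ω hω k hk h5
        exact (hB _ ω).2 (hω k hk ((hA _ ω).1 h5))
    _ ≤ _ := h1
    _ ≤ ENNReal.ofReal (1 / ((K : ℝ) * δ ^ N) + (Q - 1)) + ENNReal.ofReal (2 * Real.exp (-(1 / (2 * v)))) := by
        refine add_le_add ?_ le_rfl
        exact h2
    _ = _ := by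
        rw [← ENNReal.ofReal_add h3 (by positivity)]

end Pool.Agent.H331.RO
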